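import Mathlib

/-! Shared definitions: thin spheres, null fillings, knotted tubes and pushes. -/

namespace Pool.Agent.MP_ff6fba_gt

open Set Metric

abbrev E := EuclideanSpace ℝ (Fin 3)
abbrev Sph := sphere (0 : E) 1
abbrev Bl := closedBall (0 : E) 1
abbrev F := E × ℝ

instance : ConnectedSpace Sph :=
  Subtype.connectedSpace (isConnected_sphere (by simp [← Module.finrank_eq_rank]) _ zero_le_one)

instance : LocallyConnectedSpace Sph :=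
  haveI : Fact (Module.finrank ℝ E = 2 + 1) := ⟨by simp⟩
  ChartedSpace.locallyConnectedSpace (EuclideanSpace ℝ (Fin 2)) Sph

/-- the inclusion of the sphere in the ball -/
def inc : C(Sph, Bl) := ⟨fun x => ⟨x, sphere_subset_closedBall x.2⟩, by fun_prop⟩

/-- distance to the nearest integer -/
noncomputable def tent (v : ℝ) : ℝ := |v - round v|

/-- distance to the nearest even integer -/
noncomputable def zig (s : ℝ) : ℝ := 2 * tent (s / 2)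

theorem continuous_tent : Continuous tent := by
  have : tent = fun v : ℝ => ‖(v : UnitAddCircle)‖ := by
    funext v; rw [UnitAddCircle.norm_eq, tent]
  rw [this]; fun_prop

theorem continuous_zig : Continuous zig :=
  continuous_const.mul (continuous_tent.comp (by fun_prop))

theorem tent_nonneg (v : ℝ) : 0 ≤ tent v := abs_nonneg _

theorem tent_le (v : ℝ) : tent v ≤ 1 / 2 := abs_sub_round v

theorem tent_int (n : ℤ) : tent n = 0 := by simp [tent]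

/-- the observed region -/
def Near (η : ℝ) (v : F) : Prop := ‖v.1‖ < 10 - η ∧ η < v.2

/-- the allowed region (homotopy equivalent to a 3-sphere) -/
def Ok (η : ℝ) (v : F) : Prop := 10 - η ≤ ‖v.1‖ ∨ v.2 ≤ η ∨ 1 - η ≤ v.2

/-- `Z` is monochromatic for the two colours `ζ < 1`, `0 < ζ`. -/
def Mono (ζ : Sph → ℝ) (Z : Set Sph) : Prop := (∀ x ∈ Z, ζ x < 1) ∨ (∀ x ∈ Z, 0 < ζ x)

/-- A filled sphere whose boundary is tree-like at scale `η` in the observed region. -/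
structure Good (η : ℝ) (z : C(Bl, F) × C(Sph, ℝ)) : Prop where
  ok : ∀ x, Ok η (z.1 x)
  lo : ∀ x, 0 ≤ z.2 x
  hi : ∀ x, z.2 x ≤ 1
  thin : ∀ Z : Set Sph, IsPreconnected Z → Mono z.2 Z → ∀ x ∈ Z, Near η (z.1 (inc x)) →
    ∀ x' ∈ Z, ‖z.1 (inc x) - z.1 (inc x')‖ ≤ η

/-- The filled sphere can be moved off the observed region through thin configurations. -/
def Null (Φ : C(Bl, F)) (η : ℝ) : Prop :=
  ∃ (ζ : C(Sph, ℝ)) (z : C(Bl, F) × C(Sph, ℝ)), (∀ x, ¬ Near η (z.1 x)) ∧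
    JoinedIn {w | Good η w} (Φ, ζ) z

/-- A tube `T` passing through `m` small regions `Q k`; `hh k` records the passage. -/
structure PreTube (M : Type*) [TopologicalSpace M] (m : ℕ) where
  T : Set M
  Q : ℕ → Set M
  hh : ℕ → M → ℝ
  T_open : IsOpen T
  Q_open : ∀ k, IsOpen (Q k)
  Q_disj : ∀ k k', k < m → k' < m → k ≠ k' → Disjoint (Q k) (Q k')
  hh_cont : ∀ k < m, ContinuousOn (hh k) T
  hh_lo : ∀ k < m, ∀ u ∈ T, 0 ≤ hh k u
  hh_hi : ∀ k < m, ∀ u ∈ T, hh k u ≤ 1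
  hh_Q : ∀ k < m, ∀ u ∈ T, 0 < hh k u → hh k u < 1 → u ∈ Q k
  hh_mono : ∀ u ∈ T, ∀ k k', k < k' → k' < m → hh k u = 1 ∨ hh k' u = 0

/-- the `j`-th piece of the tube -/
def PreTube.S {M : Type*} [TopologicalSpace M] {m : ℕ} (τ : PreTube M m) (j : ℕ) : Set M :=
  {u | (u ∈ τ.T ∧ (∀ k < j, 1 / 2 < τ.hh k u) ∧ ∀ k, j ≤ k → k < m → τ.hh k u < 1 / 2) ∨
    (j < m ∧ u ∈ τ.Q j) ∨ ∃ k, k + 1 = j ∧ u ∈ τ.Q k}

/-- the passage function lifts on `σ` -/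
def PreTube.Lifts {M : Type*} [TopologicalSpace M] {m : ℕ} (τ : PreTube M m) (k : ℕ)
    (σ : Sph → M) : Prop :=
  ∃ f : Sph → ℝ, Continuous f ∧ (∀ x, σ x ∉ τ.Q k → ∃ n : ℤ, f x = n) ∧
    ∀ x, σ x ∈ τ.T → ∃ n : ℤ, f x - τ.hh k (σ x) = n

/-- The tube is knotted in each `Q k`. -/
def PreTube.Locked {M : Type*} [TopologicalSpace M] {m : ℕ} (τ : PreTube M m) : Prop :=
  ∀ k < m, ∀ σ : Sph → M, Continuous σ → Function.Injective σ → interior (range σ) = ∅ →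
    τ.Lifts k σ

/-- `p` is homotopic to the identity through maps supported in `T`. -/
def IsPush {M : Type*} [TopologicalSpace M] (T : Set M) (p : M → M) : Prop :=
  ∃ (S : Set M) (P : C(unitInterval × M, M)), IsClosed S ∧ S ⊆ T ∧ (∀ x, P (0, x) = x) ∧
    (∀ x, P (1, x) = p x) ∧ (∀ s x, x ∉ S → P (s, x) = x) ∧ ∀ s, ∀ x ∈ T, P (s, x) ∈ T

/-- the function whose zero set is the trefoil -/
noncomputable def GG (x y : ℂ) : ℂ := (‖x‖ : ℂ) * x ^ 2 - y ^ 3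

/-- the axis of the tube -/
noncomputable def ax : E := EuclideanSpace.single 2 1

/-- A long knot in `E`: `Ω` is a cut neighbourhood of it and `hm` the passage function. -/
structure IsModel (Ω : Set E) (hm : E → ℝ) (R l : ℝ) : Prop where
  isOpen : IsOpen Ω
  cont : ContinuousOn hm Ω
  lo : ∀ u, 0 ≤ hm u
  hi : ∀ u, hm u ≤ 1
  R_pos : 0 < R
  l_pos : 0 < l
  mid : ∀ u ∈ Ω, 0 < hm u → hm u < 1 → ‖u‖ < R
  lock : ∀ σ : Sph → E, Continuous σ → (∀ p q, ‖σ p‖ < R → σ p = σ q → p = q) →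
    ∃ f : Sph → ℝ, Continuous f ∧ (∀ p, R ≤ ‖σ p‖ → ∃ n : ℤ, f p = n) ∧
      ∀ p, σ p ∈ Ω → ∃ n : ℤ, f p - hm (σ p) = n
  side : ∀ B : ℝ, ∃ R' : ℝ, ∀ u : E, |u 0| ≤ B → |u 1| ≤ B →
    (R' ≤ u 2 → u ∈ Ω ∧ hm u = 1) ∧ (u 2 ≤ -R' → u ∈ Ω ∧ hm u = 0)
  axis : ∀ s : ℝ, l ≤ |s| → s • ax ∈ Ω
  path : JoinedIn Ω ((-l) • ax) (l • ax)

/-- A fine knotted tube in `E`. -/
structure IsFine {m : ℕ} (τ : PreTube E m) (c : ℕ → E) (ρ δ : ℝ) : Prop where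
  ρ_pos : 0 < ρ
  Q_eq : ∀ k < m, τ.Q k = ball (c k) ρ
  Q_sub : ∀ k < m, closedBall (c k) (3 * ρ) ⊆ ball 0 5
  T_sub : τ.T ⊆ ball 0 5
  lock : ∀ k < m, ∀ σ : Sph → E, Continuous σ → (∀ p q, σ p ∈ τ.Q k → σ p = σ q → p = q) →
    τ.Lifts k σ
  small : ∀ j ≤ m, ∀ u ∈ τ.S j, ∀ u' ∈ τ.S j, ‖u - u'‖ ≤ δ
  long : ∃ b : E, 1 ≤ ‖b‖ ∧ JoinedIn τ.T 0 b

end Pool.Agent.MP_ff6fba_gt
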