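import Mathlib

/-! The diffeomorphism group of a smooth 3-manifold and its compact-open topology. -/

namespace Pool.Agent.MP_ff6fba_gt

open scoped Manifold ContDiff

/-- The group of all smooth diffeomorphisms of `M`: self-homeomorphisms which are smooth with
smooth inverse. -/
def diffGroup (M : Type*) [TopologicalSpace M] [ChartedSpace (EuclideanSpace ℝ (Fin 3)) M] :
    Subgroup (M ≃ₜ M) where
  carrier := {f | ContMDiff (𝓡 3) (𝓡 3) ∞ f ∧ ContMDiff (𝓡 3) (𝓡 3) ∞ f.symm}
  one_mem' := ⟨contMDiff_id, contMDiff_id⟩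
  mul_mem' := fun hf hg => ⟨hf.1.comp hg.1, hg.2.comp hf.2⟩
  inv_mem' := fun hf => ⟨hf.2, hf.1⟩

/-- The compact-open topology on the diffeomorphism group, generated by the sets
`[K, U] = {f | f K ⊆ U}` with `K` compact and `U` open. -/
@[reducible] def compactOpen (M : Type*) [TopologicalSpace M]
    [ChartedSpace (EuclideanSpace ℝ (Fin 3)) M] : TopologicalSpace (diffGroup M) :=
  TopologicalSpace.generateFrom {S | ∃ K U : Set M, IsCompact K ∧ IsOpen U ∧
    S = {f : diffGroup M | Set.MapsTo (f : M ≃ₜ M) K U}}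

end Pool.Agent.MP_ff6fba_gt
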