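import Pool.Agent.MP_ff6fba_gt.Basic
import Pool.Agent.MP_ff6fba_gt.Defs

/-! Transport to a manifold: large charts, extension of pushes, the collapse map. -/

namespace Pool.Agent.MP_ff6fba_gt

open Set Metric Filter Topology
open scoped Manifold ContDiff

variable {M : Type*} [TopologicalSpace M]

theorem exists_chart [ChartedSpace E M] [IsManifold (𝓡 3) ∞ M] (x : M) {U : Set M}
    (hU : U ∈ 𝓝 x) : ∃ φ : OpenPartialHomeomorph M E, closedBall 0 30 ⊆ φ.target ∧
      φ.source ⊆ U ∧ x ∈ φ.source ∧ φ x = 0 ∧ ContMDiffOn (𝓡 3) (𝓡 3) ∞ φ φ.source ∧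
      ContMDiffOn (𝓡 3) (𝓡 3) ∞ φ.symm φ.target := by
  set e := (chartAt E x).restrOpen (interior U) isOpen_interior with he
  have hx : x ∈ e.source := ⟨mem_chart_source E x, mem_interior_iff_mem_nhds.2 hU⟩
  obtain ⟨r, hr, hb⟩ := Metric.isOpen_iff.1 e.open_target _ (e.map_source hx)
  have hc : (60 / r : ℝ) ≠ 0 := by positivity
  set A : E ≃ₜ E := (Homeomorph.subRight (e x)).trans (Homeomorph.smulOfNeZero (60 / r) hc) with hA
  have hA1 : ∀ v, A v = (60 / r) • (v - e x) := fun v => rfl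
  have hA2 : ∀ v, A.symm v = (r / 60) • v + e x := fun v => by
    rw [Homeomorph.symm_apply_eq, hA1, add_sub_cancel_right, smul_smul]
    rw [show 60 / r * (r / 60) = 1 by field_simp, one_smul]
  have c1 : ContMDiff (𝓡 3) (𝓡 3) ∞ A := by
    rw [funext hA1]
    exact ContDiff.contMDiff (by fun_prop)
  have c2 : ContMDiff (𝓡 3) (𝓡 3) ∞ A.symm := by
    rw [funext hA2]
    exact ContDiff.contMDiff (by fun_prop)
  refine ⟨e.transHomeomorph A, fun v hv => hb ?_, fun u hu => interior_subset hu.2, hx, ?_, ?_, ?_⟩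
  · show A.symm v ∈ ball (e x) r
    rw [hA2, mem_ball, dist_eq_norm, add_sub_cancel_right, norm_smul,
      Real.norm_of_nonneg (by positivity)]
    have := mem_closedBall_zero_iff.1 hv
    nlinarith
  · show A (e x) = 0
    rw [hA1, sub_self, smul_zero]
  · exact c1.comp_contMDiffOn ((contMDiffOn_chart (I := 𝓡 3) (x := x)).mono inter_subset_left)
  · exact ((contMDiffOn_chart_symm (I := 𝓡 3) (x := x)).mono inter_subset_left).comp
      c2.contMDiffOn fun v hv => hv

open Classical in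
/-- extension by the identity of a map of the chart -/
noncomputable def chExt (φ : OpenPartialHomeomorph M E) (T : Set E) (f : E → E) (u : M) : M :=
  if u ∈ φ.source ∩ φ ⁻¹' T then φ.symm (f (φ u)) else u

theorem chExt_in {φ : OpenPartialHomeomorph M E} {T : Set E} (f : E → E) {u : M}
    (hu : u ∈ φ.source ∩ φ ⁻¹' T) : chExt φ T f u = φ.symm (f (φ u)) := if_pos hu

theorem chExt_fix {φ : OpenPartialHomeomorph M E} {T : Set E} {f : E → E} {u : M}
    (h : u ∈ φ.source → f (φ u) = φ u) : chExt φ T f u = u := by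
  unfold chExt
  split_ifs with hu
  · rw [h hu.1, φ.left_inv hu.1]
  · rfl

theorem chExt_out {φ : OpenPartialHomeomorph M E} {T S : Set E} {f : E → E} {u : M}
    (hf : ∀ v, v ∉ S → f v = v) (hu : u ∉ φ.symm '' S) : chExt φ T f u = u :=
  chExt_fix fun h => hf _ fun h' => hu ⟨_, h', φ.left_inv h⟩

theorem chExt_mem {φ : OpenPartialHomeomorph M E} {T : Set E} {f : E → E} (hT : T ⊆ φ.target)
    (hf : MapsTo f T T) {u : M} (hu : u ∈ φ.source ∩ φ ⁻¹' T) :
    chExt φ T f u ∈ φ.source ∩ φ ⁻¹' T ∧ φ (chExt φ T f u) = f (φ u) := by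
  have h := hT (hf hu.2)
  rw [chExt_in f hu]
  exact ⟨⟨φ.map_target h, by rw [mem_preimage, φ.right_inv h]; exact hf hu.2⟩, φ.right_inv h⟩

theorem chExt_inv {φ : OpenPartialHomeomorph M E} {T : Set E} {f g : E → E} (hT : T ⊆ φ.target)
    (hf : MapsTo f T T) (hgf : ∀ v, g (f v) = v) (u : M) : chExt φ T g (chExt φ T f u) = u := by
  by_cases hu : u ∈ φ.source ∩ φ ⁻¹' T
  · obtain ⟨h1, h2⟩ := chExt_mem hT hf hu
    rw [chExt_in g h1, h2, hgf, φ.left_inv hu.1]
  · have : ∀ k : E → E, chExt φ T k u = u := fun k => if_neg hu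
    rw [this, this]

theorem chExt_smooth [ChartedSpace E M] {φ : OpenPartialHomeomorph M E}
    (h1 : ContMDiffOn (𝓡 3) (𝓡 3) ∞ φ φ.source) (h2 : ContMDiffOn (𝓡 3) (𝓡 3) ∞ φ.symm φ.target)
    {T S : Set E} (hT : IsOpen T) (hTt : T ⊆ φ.target) (hST : S ⊆ T) (hS : IsClosed (φ.symm '' S))
    {f : E → E} (hf : MapsTo f T T) (hfs : ContDiff ℝ ∞ f) (hfS : ∀ v, v ∉ S → f v = v) :
    ContMDiff (𝓡 3) (𝓡 3) ∞ (chExt φ T f) := by
  intro u
  by_cases hu : u ∈ φ.symm '' S
  · have ho := φ.isOpen_inter_preimage hT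
    have hu' : u ∈ φ.source ∩ φ ⁻¹' T := by
      obtain ⟨v, hv, rfl⟩ := hu
      have h := hTt (hST hv)
      exact ⟨φ.map_target h, by rw [mem_preimage, φ.right_inv h]; exact hST hv⟩
    have : ContMDiffOn (𝓡 3) (𝓡 3) ∞ (chExt φ T f) (φ.source ∩ φ ⁻¹' T) :=
      (h2.comp (hfs.contMDiff.comp_contMDiffOn (h1.mono inter_subset_left))
        fun w hw => hTt (hf hw.2)).congr fun w hw => chExt_in f hw
    exact this.contMDiffAt (ho.mem_nhds hu')
  · exact contMDiffAt_id.congr_of_eventuallyEq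
      (eventually_of_mem (hS.isOpen_compl.mem_nhds hu) fun w hw => chExt_out hfS hw)

theorem ext_push [T2Space M] [ChartedSpace E M] (φ : OpenPartialHomeomorph M E)
    (hφ : closedBall 0 30 ⊆ φ.target) (h1 : ContMDiffOn (𝓡 3) (𝓡 3) ∞ φ φ.source)
    (h2 : ContMDiffOn (𝓡 3) (𝓡 3) ∞ φ.symm φ.target) {T : Set E} (hT : IsOpen T)
    (hT5 : T ⊆ ball 0 5) (p : E ≃ₜ E) (hp1 : ContDiff ℝ ∞ p) (hp2 : ContDiff ℝ ∞ p.symm)
    (hp : IsPush T p) : ∃ P : diffGroup M, IsPush (φ.source ∩ φ ⁻¹' T) (P : M ≃ₜ M) ∧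
      ∀ u ∈ φ.source, φ u ∈ T → φ ((P : M ≃ₜ M) u) = p (φ u) := by
  obtain ⟨S, P, hS, hST, hP0, hP1, hPS, hPT⟩ := hp
  have hT30 : T ⊆ closedBall 0 30 :=
    hT5.trans (ball_subset_closedBall.trans (closedBall_subset_closedBall (by norm_num)))
  have hTt : T ⊆ φ.target := hT30.trans hφ
  have hSc : IsCompact S := (isCompact_closedBall 0 30).of_isClosed_subset hS (hST.trans hT30)
  have hS' : IsClosed (φ.symm '' S) :=
    (hSc.image_of_continuousOn (φ.continuousOn_symm.mono (hST.trans hTt))).isClosed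
  have hS'T : φ.symm '' S ⊆ φ.source ∩ φ ⁻¹' T := by
    rintro _ ⟨v, hv, rfl⟩
    have h := hTt (hST hv)
    exact ⟨φ.map_target h, by rw [mem_preimage, φ.right_inv h]; exact hST hv⟩
  have a1 : ∀ v, v ∉ S → p v = v := fun v hv => by rw [← hP1, hPS _ _ hv]
  have a2 : ∀ v, v ∉ S → p.symm v = v := fun v hv => by rw [Homeomorph.symm_apply_eq, a1 v hv]
  have a3 : MapsTo p T T := fun v hv => by rw [← hP1]; exact hPT _ _ hv
  have a4 : MapsTo p.symm T T := fun v hv => by
    by_contra h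
    have := a1 _ fun h' => h (hST h')
    rw [p.apply_symm_apply] at this
    exact h (this ▸ hv)
  have s1 := chExt_smooth h1 h2 hT hTt hST hS' a3 hp1 a1
  have s2 := chExt_smooth h1 h2 hT hTt hST hS' a4 hp2 a2
  have hc : Continuous fun z : unitInterval × M => chExt φ T (fun v => P (z.1, v)) z.2 := by
    rw [continuous_iff_continuousAt]
    intro z
    by_cases hu : z.2 ∈ φ.symm '' S
    · have ho := (φ.isOpen_inter_preimage hT).preimage (continuous_snd (X := unitInterval))
      have b1 : ContinuousOn (fun z : unitInterval × M => P (z.1, φ z.2))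
          (Prod.snd ⁻¹' (φ.source ∩ φ ⁻¹' T)) :=
        P.continuous.comp_continuousOn (continuousOn_fst.prodMk
          (φ.continuousOn.comp continuousOn_snd fun w hw => hw.1))
      have : ContinuousOn (fun z : unitInterval × M => chExt φ T (fun v => P (z.1, v)) z.2)
          (Prod.snd ⁻¹' (φ.source ∩ φ ⁻¹' T)) :=
        (φ.continuousOn_symm.comp b1 fun w hw => hTt (hPT _ _ hw.2)).congr
          fun w hw => chExt_in _ hw
      exact this.continuousAt (ho.mem_nhds (hS'T hu))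
    · exact continuousAt_snd.congr (eventually_of_mem
        ((hS'.isOpen_compl.preimage continuous_snd).mem_nhds hu)
        fun w hw => (chExt_out (hPS w.1) hw).symm)
  refine ⟨⟨⟨⟨chExt φ T p, chExt φ T p.symm, chExt_inv hTt a3 p.symm_apply_apply,
    chExt_inv hTt a4 p.apply_symm_apply⟩, s1.continuous, s2.continuous⟩, s1, s2⟩,
    ⟨φ.symm '' S, ⟨_, hc⟩, hS', hS'T, fun u => chExt_fix (f := fun v => P (0, v)) fun _ => hP0 _,
      fun u => ?_,
      fun s u hu => chExt_out (hPS s) hu, fun s u hu => (chExt_mem hTt (hPT s) hu).1⟩,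
    fun u hu hu' => (chExt_mem hTt a3 ⟨hu, hu'⟩).2⟩
  show chExt φ T (fun v => P (1, v)) u = chExt φ T p u
  rw [funext hP1]

/-- the collapse in the chart -/
noncomputable def colG (v : E) : F := (max 0 (min 1 (22 - ‖v‖)) • v, max 0 (min 1 (21 - ‖v‖)))

theorem colG_cont : Continuous colG := by unfold colG; fun_prop

theorem colG_far {v : E} (h : 22 ≤ ‖v‖) : colG v = 0 := by
  rw [colG, max_eq_left (min_le_of_right_le (by linarith)),
    max_eq_left (min_le_of_right_le (by linarith)), zero_smul]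
  rfl

theorem colG_fst {v : E} (h : ‖v‖ ≤ 21) : (colG v).1 = v := by
  show max 0 (min 1 (22 - ‖v‖)) • v = v
  rw [min_eq_left (by linarith), max_eq_right zero_le_one, one_smul]

theorem colG_one {v : E} (h : ‖v‖ ≤ 20) : (colG v).2 = 1 := by
  show max 0 (min 1 (21 - ‖v‖)) = 1
  rw [min_eq_left (by linarith), max_eq_right zero_le_one]

theorem colG_zero {v : E} (h : 21 ≤ ‖v‖) : (colG v).2 = 0 :=
  max_eq_left (min_le_of_right_le (by linarith))

theorem exists_collapse [T2Space M] [ChartedSpace E M] (φ : OpenPartialHomeomorph M E)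
    (hφ : closedBall 0 30 ⊆ φ.target) : ∃ q : C(M, F), (∀ u, Ok 0 (q u)) ∧
      (∀ u ∈ φ.source, ‖φ u‖ ≤ 20 → q u = (φ u, 1)) ∧
      (∀ u, Near 0 (q u) → u ∈ φ.source ∧ ‖φ u‖ < 10) ∧
      ∀ (g₀ : diffGroup M) (δ : ℝ), 0 < δ →
        {g : diffGroup M | ∀ u, ‖q ((g : M ≃ₜ M) u) - q ((g₀ : M ≃ₜ M) u)‖ ≤ δ} ∈
          @nhds _ (compactOpen M) g₀ := by
  classical
  have hb : ∀ {r : ℝ}, r ≤ 30 → closedBall 0 r ⊆ φ.target := fun h =>
    (closedBall_subset_closedBall h).trans hφ
  have hcp : ∀ {S : Set E}, IsCompact S → S ⊆ φ.target → IsCompact (φ.symm '' S) := fun h h' =>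
    h.image_of_continuousOn (φ.continuousOn_symm.mono h')
  set L := φ.symm '' closedBall 0 22 with hL
  have hLc : IsCompact L := hcp (isCompact_closedBall _ _) (hb (by norm_num))
  set q : M → F := fun u => if u ∈ φ.source then colG (φ u) else 0 with hq
  have q1 : ∀ u ∈ φ.source, q u = colG (φ u) := fun u hu => if_pos hu
  have q2 : ∀ u, u ∉ L → q u = 0 := fun u hu => by
    by_cases h : u ∈ φ.source
    · rw [q1 u h]
      exact colG_far (le_of_not_ge fun h' => hu ⟨_, mem_closedBall_zero_iff.2 h', φ.left_inv h⟩)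
    · exact if_neg h
  have q3 : ∀ u, u ∉ φ.source → q u = 0 := fun u hu => if_neg hu
  have hqc : Continuous q := by
    rw [continuous_iff_continuousAt]
    intro u
    by_cases hu : u ∈ φ.source
    · exact ((colG_cont.comp_continuousOn φ.continuousOn).congr q1).continuousAt
        (φ.open_source.mem_nhds hu)
    · have : u ∉ L := by
        rintro ⟨v, hv, rfl⟩
        exact hu (φ.map_target (hb (by norm_num) hv))
      exact continuousAt_const.congr (eventually_of_mem (hLc.isClosed.isOpen_compl.mem_nhds this)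
        fun w hw => (q2 w hw).symm)
  refine ⟨⟨q, hqc⟩, fun u => ?_, fun u hu h => ?_, fun u hu => ?_, fun g₀ δ hδ => ?_⟩
  · show Ok 0 (q u)
    by_cases hu : u ∈ φ.source
    · rw [q1 u hu]
      by_cases h : ‖φ u‖ ≤ 20
      · exact Or.inr (Or.inr (by rw [colG_one h]; norm_num))
      by_cases h' : ‖φ u‖ ≤ 21
      · exact Or.inl (by rw [colG_fst h']; linarith)
      · exact Or.inr (Or.inl (colG_zero (le_of_not_ge h')).le)
    · rw [q3 u hu]
      exact Or.inr (Or.inl le_rfl)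
  · show q u = _
    rw [q1 u hu]
    exact Prod.ext (colG_fst (by linarith)) (colG_one h)
  · change Near 0 (q u) at hu
    have h : u ∈ φ.source := by
      by_contra h
      rw [q3 u h] at hu
      exact lt_irrefl _ hu.2
    rw [q1 u h] at hu
    have h' : ‖φ u‖ ≤ 21 := le_of_not_ge fun h' => (colG_zero h').not_gt hu.2
    have := hu.1
    rw [colG_fst h', sub_zero] at this
    exact ⟨h, this⟩
  let : TopologicalSpace (diffGroup M) := compactOpen M
  have hop : ∀ K U : Set M, IsCompact K → IsOpen U →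
      IsOpen {f : diffGroup M | MapsTo (f : M ≃ₜ M) K U} := fun K U hK hU =>
    TopologicalSpace.isOpen_generateFrom_of_mem ⟨K, U, hK, hU, rfl⟩
  set h₀ : M ≃ₜ M := g₀.1 with hh₀
  set K := h₀ ⁻¹' (φ.symm '' closedBall 0 25) with hK
  have hKc : IsCompact K := h₀.isCompact_preimage.2
    (hcp (isCompact_closedBall _ _) (hb (by norm_num)))
  have c1 : Continuous fun g : diffGroup M => ((g : M ≃ₜ M) : C(M, M)) :=
    ContinuousMap.continuous_compactOpen.2 fun K hK U hU => hop K U hK hU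
  have c2 := ((ContinuousMap.continuous_postcomp (X := M) ⟨q, hqc⟩).comp c1).tendsto g₀
  have n1 := Metric.tendstoUniformlyOn_iff.1
    (ContinuousMap.tendsto_iff_forall_isCompact_tendstoUniformlyOn.1 c2 K hKc) δ hδ
  have hsp : sphere (0 : E) 25 ⊆ φ.target := sphere_subset_closedBall.trans (hb (by norm_num))
  have n2 := (hop (h₀ ⁻¹' (φ.symm '' sphere 0 25)) Lᶜ (h₀.isCompact_preimage.2
    (hcp (isCompact_sphere _ _) hsp)) hLc.isClosed.isOpen_compl).mem_nhds (x := g₀) (by
      rintro u ⟨v, hv, h⟩ ⟨w, hw, h'⟩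
      have := φ.symm.injOn (hb (by norm_num) hw) (hsp hv) (h'.trans h.symm)
      rw [this, mem_closedBall_zero_iff, mem_sphere_zero_iff_norm.1 hv] at hw
      norm_num at hw)
  have hbo : ∀ {r : ℝ}, r ≤ 30 → IsOpen (φ.symm '' ball 0 r) := fun h =>
    φ.isOpen_image_symm_of_subset_target isOpen_ball (ball_subset_closedBall.trans (hb h))
  have n3 := (hop {h₀.symm (φ.symm 0)} (φ.symm '' ball 0 22) isCompact_singleton
    (hbo (by norm_num))).mem_nhds (x := g₀) (by
      rintro u rfl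
      exact ⟨0, mem_ball_self (by norm_num), (h₀.apply_symm_apply _).symm⟩)
  filter_upwards [n1, n2, n3] with g m1 m2 m3 u
  by_cases hu : u ∈ K
  · have := m1 u hu
    rw [dist_comm, dist_eq_norm] at this
    exact this.le
  have hpc : IsPreconnected ((g : M ≃ₜ M) ⁻¹' L) := (g : M ≃ₜ M).isPreconnected_preimage.2
    ((convex_closedBall 0 22).isPreconnected.image _
      (φ.continuousOn_symm.mono (hb (by norm_num))))
  have hAK : h₀ ⁻¹' (φ.symm '' ball 0 25) ⊆ K := preimage_mono (image_mono ball_subset_closedBall)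
  have m4 : (g : M ≃ₜ M) (h₀.symm (φ.symm 0)) ∈ L := image_mono ball_subset_closedBall (m3 rfl)
  have hsub : (g : M ≃ₜ M) ⁻¹' L ⊆ h₀ ⁻¹' (φ.symm '' ball 0 25) :=
    hpc.subset_left_of_subset_union ((hbo (r := 25) (by norm_num)).preimage h₀.continuous)
    hKc.isClosed.isOpen_compl (disjoint_compl_right.mono_left hAK) (fun w hw => by
      by_cases hwK : w ∈ K
      · obtain ⟨v, hv, h⟩ := hwK
        rcases (mem_closedBall_zero_iff.1 hv).lt_or_eq with h' | h'
        · exact Or.inl ⟨v, mem_ball_zero_iff.2 h', h⟩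
        · exact absurd hw (m2 ⟨v, mem_sphere_zero_iff_norm.2 h', h⟩)
      · exact Or.inr hwK)
    ⟨h₀.symm (φ.symm 0), m4, 0,
      mem_ball_self (by norm_num), (h₀.apply_symm_apply _).symm⟩
  show ‖q _ - q _‖ ≤ δ
  rw [q2 _ fun h => hu (hAK (hsub h)), q2 (h₀ u) fun h => hu
    (image_mono (closedBall_subset_closedBall (by norm_num)) h), sub_self, norm_zero]
  exact hδ.le

end Pool.Agent.MP_ff6fba_gt
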